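import Pool.Agent.X886.MD.Final

/-!
# Flow factors of finite entropy need not separate points

There is a fixed-point free flow `φ` on a compact metrizable space `X` with a factor map `p` onto the rotation flow of
the circle `ℝ / ℤ`, all of whose fibres are infinite, such that no flow factor of finite topological entropy separates
two points of the same fibre of `p`.

`X` is the space of pairs of a `1`-Lipschitz function `ℝ → [0,1]` (pointwise convergence) and a point of the circle, `φ`
is translation of the function together with rotation of the circle, `p` is the second coordinate.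

Proof.  Let a flow factor map `π : X → Y` separate `w = (f, θ)` and `w' = (g, θ)`, and let `ρ : Y → ℝ` be continuous with
`ρ (π w) = 0`, `ρ (π w') = 1`.  By compactness there is `M` such that `ρ ∘ π` changes by less than `1/8` when the function
is changed outside `[-M, M]` only.  For `t ∈ [0,1]^n` there is `x(t)`, depending continuously on `t`, equal to
`(1 - t_i) f + t_i g` (translated) on the window of radius `M` about `i (2M + 1)`.  By the Poincaré-Miranda theorem the
vectors `(ρ (π (φ^{i (2M+1)} x(t))))_i` fill the cube `[1/4, 3/4]^n`, so the time-one map of `Y` has at least `(K+1)^n`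
separated orbits of length `n (2M + 1)` at a scale depending on `K` only, for every `K`: the entropy is infinite.
-/

namespace Pool.Agent.Results.MP_54b048_an.FibresNotSeparated

open Set Pool.Agent.X886.MD

universe u

theorem result :
    ∃ (X : Type) (_ : TopologicalSpace X) (_ : CompactSpace X) (_ : TopologicalSpace.MetrizableSpace X)
      (φ : Flow ℝ X) (p : X → UnitAddCircle),
      (∀ x, ∃ t, φ t x ≠ x) ∧
      (Continuous p ∧ Function.Surjective p ∧ (∀ t x, p (φ t x) = p x + (t : UnitAddCircle)) ∧
        ∀ θ, (p ⁻¹' {θ}).Infinite) ∧
      ∀ w w' : X, p w = p w' →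
        ∀ (Y : Type u) (_ : MetricSpace Y) (_ : CompactSpace Y) (ψ : Flow ℝ Y) (π : X → Y),
          Continuous π → Function.Surjective π → (∀ t x, π (φ t x) = ψ t (π x)) → π w ≠ π w' →
          Dynamics.coverEntropy (ψ 1) Set.univ = ⊤ := by
  refine ⟨Sp, inferInstance, inferInstance, inferInstance, flow, fun x => x.2, ?_, ⟨continuous_snd, ?_, ?_, ?_⟩, ?_⟩
  · exact fixedPointFree
  · intro θ
    exact ⟨(constFn ⟨0, le_rfl, zero_le_one⟩, θ), rfl⟩
  · intro t x
    rfl
  · exact fibre_infinite
  · intro w w' hw Y _ _ ψ π hπ _ he hne
    exact factor_entropy w w' hw Y ψ π hπ he hne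

end Pool.Agent.Results.MP_54b048_an.FibresNotSeparated
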